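import Pool.Agent.Vizing.Overfull

set_option autoImplicit false

namespace Pool.Agent.Results.MP_ab3574_co.ExactValues

open Pool.Agent.Vizing Finset

/-- A class two graph on 9 vertices with colouring number 5 and maximum degree 6. -/
def G9 : SimpleGraph (Fin 9) :=
  maskGraph 9 [238, 221, 123, 311, 430, 221, 295, 307, 216] (by decide +kernel) (by decide +kernel)

instance : DecidableRel G9.Adj := inferInstanceAs (DecidableRel (maskGraph 9 _ _ _).Adj)

/-- A class two graph on 13 vertices with colouring number 6 and maximum degree 8. -/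
def G13 : SimpleGraph (Fin 13) :=
  maskGraph 13 [894, 765, 891, 1511, 4583, 3231, 2719, 3450, 5789, 7495, 7080, 5856, 3856]
    (by decide +kernel) (by decide +kernel)

instance : DecidableRel G13.Adj := inferInstanceAs (DecidableRel (maskGraph 13 _ _ _).Adj)

theorem ncard_filter {n : ℕ} (G : SimpleGraph (Fin n)) [DecidableRel G.Adj] (v : Fin n) :
    {u : Fin n | G.Adj v u ∧ (u : ℕ) < (v : ℕ)}.ncard =
      (univ.filter fun u : Fin n => G.Adj v u ∧ (u : ℕ) < (v : ℕ)).card := by
  rw [← Set.ncard_coe_finset]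
  congr 1
  ext u
  simp

theorem six_lt : 6 < vizingS 4 := by
  refine lt_vizingS (by norm_num) G9 (fun v => (v : ℕ)) Fin.val_injective ?_ ?_ ?_
  · intro v
    rw [ncard_filter]
    revert v
    decide +kernel
  · decide +kernel
  · decide +kernel

theorem eight_lt : 8 < vizingS 5 := by
  refine lt_vizingS (by norm_num) G13 (fun v => (v : ℕ)) Fin.val_injective ?_ ?_ ?_
  · intro v
    rw [ncard_filter]
    revert v
    decide +kernel
  · decide +kernel
  · decide +kernel

/-- The bound `2k - 1` is attained for `k = 4` and `k = 5`, that is `s(4) = 7` and `s(5) = 9`. -/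
theorem result : ∀ k : ℕ, k = 4 ∨ k = 5 → vizingS k = 2 * k - 1 := by
  have h4 : vizingS 4 ≤ 7 := Nat.sInf_le ⟨by norm_num, fun V _ G _ h1 h2 =>
    classOne_of_col (k := 4) le_rfl V G h1 h2⟩
  have h5 : vizingS 5 ≤ 9 := Nat.sInf_le ⟨by norm_num, fun V _ G _ h1 h2 =>
    classOne_of_col (k := 5) (by norm_num) V G h1 h2⟩
  rintro k (rfl | rfl)
  · exact le_antisymm h4 six_lt
  · exact le_antisymm h5 eight_lt

end Pool.Agent.Results.MP_ab3574_co.ExactValues
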