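import Pool.Agent.Vizing.Bridge

set_option autoImplicit false

namespace Pool.Agent.Results.MP_ab3574_co.VizingConjecture

open Pool.Agent.Vizing

/-- For every `k ≥ 4`, every finite graph with colouring number at most `k + 1` and maximum degree
at least `2k - 1` is of class one; that is, `s(k) ≤ 2k - 1`. -/
theorem result (k : ℕ) (hk : 4 ≤ k) :
    (∀ (V : Type) [Fintype V] (G : SimpleGraph V) [DecidableRel G.Adj],
      colNumber G ≤ k + 1 → 2 * k - 1 ≤ G.maxDegree → ClassOne G) ∧
    vizingS k ≤ 2 * k - 1 := by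
  have h : ∀ (V : Type) [Fintype V] (G : SimpleGraph V) [DecidableRel G.Adj],
      colNumber G ≤ k + 1 → 2 * k - 1 ≤ G.maxDegree → ClassOne G :=
    fun V _ G _ h1 h2 => classOne_of_col hk V G h1 h2
  exact ⟨h, Nat.sInf_le ⟨by omega, h⟩⟩

end Pool.Agent.Results.MP_ab3574_co.VizingConjecture
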